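import Pool.Agent.helper88.HT.Spec

/-! Row `ht:UP`: the conversion for both values of `b`. -/

set_option autoImplicit false

namespace Pool.Agent.helper88.HT

open Pool.Agent.helper38.Neg Pool.Agent.helper55.NT

private theorem UP_pos (n k l : ℕ) :
    1 ≤ (k * (lg n + 1) + 1) * 2 ^ (k + 2) * (2 * n + 2) ^ l := by
  have h1 : 0 < (k * (lg n + 1) + 1) * 2 ^ (k + 2) * (2 * n + 2) ^ l := by positivity
  exact h1

private theorem UP_le {A n s : ℕ} (hA : 1 ≤ A) :
    n + 1 + A * (5 * n ^ 2 + s + 5) ≤ A * (6 * n ^ 2 + s + 6) := by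
  have h1 : n ≤ n ^ 2 := Nat.le_self_pow (by norm_num) n
  have h2 : n ^ 2 + 1 ≤ A * (n ^ 2 + 1) := Nat.le_mul_of_pos_left _ hA
  have h3 : A * (6 * n ^ 2 + s + 6) = A * (n ^ 2 + 1) + A * (5 * n ^ 2 + s + 5) := by ring
  rw [h3]
  omega

theorem UP (h1 : UP0_stmt) (h2 : NEG_stmt) (h3 : V3_stmt) : UP_stmt := by
  have _ := h3
  intro b n s k l C o
  have hA := UP_pos n k l
  cases b with
  | false =>
    obtain ⟨s', hs, C', o', hv, hf, ht⟩ := h1 n s k l C o
    refine ⟨s', hs.trans ?_, C', o', hv, hf, ht⟩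
    have h4 := UP_le (n := n) (s := s) hA
    have h5 : ((k * (lg n + 1) + 1) * 2 ^ (k + 2) * (2 * n + 2) ^ l) * (5 * n ^ 2 + s + 4) ≤
        ((k * (lg n + 1) + 1) * 2 ^ (k + 2) * (2 * n + 2) ^ l) * (5 * n ^ 2 + s + 5) :=
      Nat.mul_le_mul_left _ (by omega)
    omega
  | true =>
    obtain ⟨C1, o1, hv1, -⟩ := h2 n s C o
    obtain ⟨s2, hs2, C2, o2, hv2, hf, ht⟩ := h1 n (s + 1) k l C1 o1
    obtain ⟨C3, o3, hv3, h33⟩ := h2 n s2 C2 o2
    refine ⟨s2 + 1, ?_, C3, o3, ?_, ?_, ?_⟩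
    · have h4 := UP_le (n := n) (s := s) hA
      have h5 : 5 * n ^ 2 + (s + 1) + 4 = 5 * n ^ 2 + s + 5 := by ring
      rw [h5] at hs2
      omega
    · intro x
      rw [hv3, hv2, hv1, Bool.not_not]
    · intro a ha hx
      have h6 : val3 C2 a o2 = some false := by
        refine hf a ha fun x hc => ?_
        have h7 := hx x hc
        rw [hv3] at h7
        revert h7
        cases C2.val x o2 <;> simp
      rw [h33, h6]
      rfl
    · intro a ha hx
      have h6 : val3 C2 a o2 = some true := by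
        refine ht a ha fun x hc => ?_
        have h7 := hx x hc
        rw [hv3] at h7
        revert h7
        cases C2.val x o2 <;> simp
      rw [h33, h6]
      rfl

end Pool.Agent.helper88.HT
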